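import Pool.Agent.Helper92.PV.St

/-!
# Project PV (MP_ad0dc2_nt), module SPL: the solutions of a patch on the auxiliary cone
-/

set_option autoImplicit false

open Finset

namespace Pool.Agent.Helper42.PV

open Pool.Agent.Helper92.PV Pool.Agent.Helper92.PU Pool.Agent.Helper92.PW

private lemma coeff_of_grd (P : ℕ) (H : MvPolynomial (Fin 3) ℤ) (p : Pt) (b : Fin 3)
    (h : ¬ (P : ℤ) ∣ grd H p b) : ∃ s, ¬ (P : ℤ) ∣ H.coeff s := by
  by_contra hcon
  push Not at hcon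
  rw [← MvPolynomial.C_dvd_iff_dvd_coeff] at hcon
  obtain ⟨ψ, rfl⟩ := hcon
  apply h
  unfold grd vl
  rw [MvPolynomial.pderiv_C_mul, map_mul, MvPolynomial.eval_C]
  exact Dvd.intro _ rfl

private lemma vec_of_prm (P : ℕ) (hP : P.Prime) (p : Pt) (hp : Prm p) :
    ∃ m, ¬ (P : ℤ) ∣ vec p m := by
  by_contra hcon
  push Not at hcon
  have h0 : (P : ℤ) ∣ p.1 := by simpa [vec] using hcon 0
  have h1 : (P : ℤ) ∣ p.2.1 := by simpa [vec] using hcon 1
  have h2 : (P : ℤ) ∣ p.2.2 := by simpa [vec] using hcon 2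
  have h3 := hp _ h0 h1 h2
  exact (Nat.prime_iff_prime_int.1 hP).not_isUnit h3

private lemma exists_not_dvd (r : ℕ) (P : Fin r → ℕ) (Y : ℝ) (hY : 0 ≤ Y)
    (hinj : Function.Injective P) (hP : ∀ i, (P i).Prime ∧ Y < P i) (N : ℤ) (hN : N ≠ 0)
    (hb : |(N : ℝ)| < Y ^ r) : ∃ i, ¬ ((P i : ℕ) : ℤ) ∣ N := by
  by_contra hcon
  push Not at hcon
  have h1 : (∏ i, ((P i : ℕ) : ℤ)) ∣ N := by
    apply Finset.prod_dvd_of_coprime
    · intro i _ j _ hij
      exact Nat.isCoprime_iff_coprime.2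
        ((Nat.coprime_primes (hP i).1 (hP j).1).2 (fun h => hij (hinj h)))
    · intro i _
      exact hcon i
  have h2 : (∏ i, ((P i : ℕ) : ℤ)) ≤ |N| :=
    Int.le_of_dvd (abs_pos.2 hN) ((dvd_abs _ _).2 h1)
  have h3 : Y ^ r ≤ ∏ i, (P i : ℝ) := by
    calc Y ^ r = ∏ _i : Fin r, Y := by simp
      _ ≤ ∏ i, (P i : ℝ) := Finset.prod_le_prod (fun _ _ => hY) (fun i _ => (hP i).2.le)
  have h5 : ∏ i, (P i : ℝ) ≤ |(N : ℝ)| := by exact_mod_cast h2
  linarith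

theorem hSPL (hCHN : StCHN) (hCLS : StCLS) (hPRM : StPRM) (hCL6 : StCL6) : StSPL := by
  classical
  intro k D c ε hk hc hε
  obtain ⟨C1, C, hC1, hC, h6⟩ := hCL6 k ε hk hε
  obtain ⟨c', hc', hchn⟩ := hCHN D
  obtain ⟨r1, hr1⟩ := exists_nat_ge (10 * (c + D))
  obtain ⟨r2, hr2⟩ := pow_unbounded_of_one_lt c' (one_lt_two : (1 : ℝ) < 2)
  obtain ⟨r, hr⟩ : ∃ r : ℕ, r = max r1 r2 := ⟨_, rfl⟩
  have hrc : 10 * (c + D) ≤ r := hr1.trans (by rw [hr]; exact_mod_cast le_max_left _ _)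
  have hr2' : c' < 2 ^ r := by
    refine hr2.trans_le ?_
    exact pow_le_pow_right₀ one_le_two (by rw [hr]; exact le_max_right _ _)
  obtain ⟨C2, hC2⟩ : ∃ C2 : ℝ, C2 = max C1 2 := ⟨_, rfl⟩
  have hC2a : C1 ≤ C2 := by rw [hC2]; exact le_max_left _ _
  have hC2b : 2 ≤ C2 := by rw [hC2]; exact le_max_right _ _
  refine ⟨D * r * (2 * D * (2 ^ (r + 1) * C2)) * C + 1, by positivity, ?_⟩
  intro B S G hB hkB hS hxi hG hhom hcoef hvl
  obtain ⟨H, hH1, hH2, hH3⟩ := hchn G hG hhom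
  have hB0 : 0 < B := by linarith
  have hBt : 1 ≤ B ^ (1 / 10 : ℝ) := Real.one_le_rpow hB (by norm_num)
  obtain ⟨Y, hY⟩ : ∃ Y : ℝ, Y = C2 * B ^ (1 / 10 : ℝ) := ⟨_, rfl⟩
  have hY1 : 1 ≤ Y := by
    rw [hY]
    nlinarith
  obtain ⟨P, hPinj, hP⟩ := hPRM r Y hY1
  have hBd : ∀ p ∈ S, Bd B p := by
    intro p hp
    have h := hS p hp
    exact ⟨(h.xy.trans h.yz).trans h.z_le, h.yz.trans h.z_le, h.z_le⟩
  -- the size of the gradients
  have hsize : ∀ l < D, ∀ p ∈ S, ∀ b, |(grd (H l) p b : ℝ)| < Y ^ r := by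
    intro l hl p hp b
    have h1 := hH2 (B ^ c) B (by positivity) hB hcoef l hl p (hBd p hp) b
    refine h1.trans_lt ?_
    have h2 : Y ^ r = C2 ^ r * B ^ ((r : ℝ) / 10) := by
      rw [hY, mul_pow, ← Real.rpow_natCast (B ^ (1 / 10 : ℝ)) r, ← Real.rpow_mul hB0.le]
      congr 2
      ring
    have h3 : B ^ c * B ^ D = B ^ (c + D) := by
      rw [Real.rpow_add hB0, Real.rpow_natCast]
    rw [h2, mul_assoc, h3]
    have h4 : B ^ (c + D) ≤ B ^ ((r : ℝ) / 10) := Real.rpow_le_rpow_of_exponent_le hB (by linarith)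
    have h5 : (2 : ℝ) ^ r ≤ C2 ^ r := pow_le_pow_left₀ (by norm_num) hC2b r
    have h6 : 0 < B ^ (c + D) := Real.rpow_pos_of_pos hB0 _
    have h7 : 0 < C2 ^ r := by positivity
    calc c' * B ^ (c + D) < C2 ^ r * B ^ (c + D) :=
          mul_lt_mul_of_pos_right (hr2'.trans_le h5) h6
      _ ≤ C2 ^ r * B ^ ((r : ℝ) / 10) := mul_le_mul_of_nonneg_left h4 h7.le
  -- the cover
  obtain ⟨T, hT⟩ : ∃ T : ℕ × Fin r → Finset Pt, T = fun a => S.filter (fun p =>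
      vl (H a.1) p = 0 ∧ ∃ b, ¬ ((P a.2 : ℕ) : ℤ) ∣ grd (H a.1) p b) := ⟨_, rfl⟩
  have hcover : S ⊆ (range D ×ˢ (univ : Finset (Fin r))).biUnion T := by
    intro p hp
    obtain ⟨l, hl, hl0, b, hb⟩ := hH3 p (hvl p hp)
    obtain ⟨i, hi⟩ := exists_not_dvd r P Y (by linarith) hPinj (fun i => ⟨(hP i).1, (hP i).2.1⟩)
      (grd (H l) p b) hb (hsize l hl p hp b)
    rw [mem_biUnion]
    refine ⟨(l, i), mem_product.2 ⟨mem_range.2 hl, mem_univ _⟩, ?_⟩
    rw [hT, mem_filter]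
    exact ⟨hp, hl0, b, hi⟩
  have hBε : 0 < B ^ ε := Real.rpow_pos_of_pos hB0 _
  -- one piece
  have hpiece : ∀ a ∈ range D ×ˢ (univ : Finset (Fin r)), ((T a).card : ℝ) ≤
      (2 * D * (2 ^ (r + 1) * Y)) * (C * B ^ ε) := by
    rintro ⟨l, i⟩ ha
    have hl : l < D := mem_range.1 (mem_product.1 ha).1
    have hTm : ∀ p ∈ T (l, i), p ∈ S ∧ vl (H l) p = 0 ∧ ∃ b, ¬ ((P i : ℕ) : ℤ) ∣ grd (H l) p b := by
      intro p hp
      rw [hT, mem_filter] at hp
      exact hp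
    rcases (T (l, i)).eq_empty_or_nonempty with he | ⟨p0, hp0⟩
    · rw [he]
      simp only [card_empty, Nat.cast_zero]
      positivity
    · obtain ⟨-, -, b0, hb0⟩ := hTm p0 hp0
      obtain ⟨I, f, hI, hf1, hf2⟩ := hCLS (P i) (D - l) (H l) (hP i).1 (by omega) (hH1 l hl)
        (coeff_of_grd _ _ _ _ hb0) (T (l, i)) (fun p hp =>
          ⟨(hTm p hp).2.1, vec_of_prm _ (hP i).1 p (hS p (hTm p hp).1).prm⟩)
      have hfib : ∀ v ∈ I, (((T (l, i)).filter (fun p => f p = v)).card : ℝ) ≤ C * B ^ ε := by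
        intro v _
        refine h6 B (P i) (D - l) (H l) _ hB hkB (hP i).1 ?_ (hH1 l hl) ?_ ?_
        · refine le_trans ?_ (hP i).2.1.le
          rw [hY]
          exact mul_le_mul_of_nonneg_right hC2a (by positivity)
        · intro p hp
          have h1 := hTm p (mem_filter.1 hp).1
          exact ⟨hS p h1.1, h1.2⟩
        · intro p hp q hq
          have h1 := hTm p (mem_filter.1 hp).1
          have h2 := hTm q (mem_filter.1 hq).1
          exact ⟨hxi p h1.1 q h2.1, hf2 p (mem_filter.1 hp).1 q (mem_filter.1 hq).1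
            ((mem_filter.1 hp).2.trans (mem_filter.1 hq).2.symm)⟩
      have hcard : ((T (l, i)).card : ℝ) ≤ I.card * (C * B ^ ε) := by
        have h1 := card_eq_sum_card_fiberwise (f := f) (s := T (l, i)) (t := I)
          (fun p hp => hf1 p hp)
        rw [h1, Nat.cast_sum]
        calc ∑ v ∈ I, (((T (l, i)).filter (fun p => f p = v)).card : ℝ)
            ≤ ∑ _v ∈ I, (C * B ^ ε) := sum_le_sum hfib
          _ = I.card * (C * B ^ ε) := by rw [sum_const, nsmul_eq_mul]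
      refine hcard.trans (mul_le_mul_of_nonneg_right ?_ (by positivity))
      have h1 : (I.card : ℝ) ≤ 2 * (D - l : ℕ) * P i := by exact_mod_cast hI
      have h2 : ((D - l : ℕ) : ℝ) ≤ D := by exact_mod_cast Nat.sub_le D l
      have h3 : (P i : ℝ) ≤ 2 ^ (r + 1) * Y := (hP i).2.2
      have h4 : (0 : ℝ) ≤ P i := Nat.cast_nonneg _
      calc (I.card : ℝ) ≤ 2 * (D - l : ℕ) * P i := h1
        _ ≤ 2 * D * P i := by gcongr
        _ ≤ 2 * D * (2 ^ (r + 1) * Y) := by gcongr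
  have hsum : (S.card : ℝ) ≤ D * r * ((2 * D * (2 ^ (r + 1) * Y)) * (C * B ^ ε)) := by
    have h1 : (S.card : ℝ) ≤ ∑ a ∈ range D ×ˢ (univ : Finset (Fin r)), ((T a).card : ℝ) := by
      have h2 := (card_le_card hcover).trans card_biUnion_le
      exact_mod_cast h2
    refine h1.trans ((sum_le_sum hpiece).trans (le_of_eq ?_))
    rw [sum_const, card_product, card_range, card_univ, Fintype.card_fin, nsmul_eq_mul]
    push_cast
    ring
  have hBB : B ^ (1 / 10 : ℝ) * B ^ ε = B ^ (1 / 10 + ε : ℝ) := by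
    rw [← Real.rpow_add hB0]
  refine hsum.trans ?_
  rw [add_mul, one_mul]
  have h1 : D * r * ((2 * D * (2 ^ (r + 1) * Y)) * (C * B ^ ε)) =
      D * r * (2 * D * (2 ^ (r + 1) * C2)) * C * B ^ (1 / 10 + ε : ℝ) := by
    rw [hY, ← hBB]
    ring
  rw [h1]
  have h2 : 0 < B ^ (1 / 10 + ε : ℝ) := Real.rpow_pos_of_pos hB0 _
  linarith

end Pool.Agent.Helper42.PV
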